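import Pool.Agent.U180.DP.Stm

set_option autoImplicit false

/-! Package ALL of Project DP: windows at all real numbers, the constant `1`. -/

namespace Pool.Agent.U59.DP

open MeasureTheory ProbabilityTheory Filter Topology Pool.Agent.U180.DP

theorem void_sub {Ω : Type} (A : ℝ) (U : ℕ → Ω → ℝ) {x y x' y' : ℝ} (h : x ≤ x')
    (h' : x' + y' ≤ x + y) : void A U x y ⊆ void A U x' y' := by
  intro ω hω p hp hh
  exact hω p hp ⟨lt_of_le_of_lt h hh.1, hh.2.trans h'⟩

theorem sq_div (c L : ℝ) : c * L ^ 2 / L = c * L := by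
  by_cases h : L = 0
  · simp [h]
  · field_simp

theorem exp_eq (a c : ℝ) (n : ℝ) (hn : 0 < n) :
    Real.exp (-(a * (c * Real.log n ^ 2) / Real.log n)) = n ^ (-(a * c)) := by
  rw [Real.rpow_def_of_pos hn, mul_div_assoc, sq_div]
  congr 1
  ring

theorem tlog : Tendsto (fun n : ℕ => Real.log n) atTop atTop :=
  Real.tendsto_log_atTop.comp tendsto_natCast_atTop_atTop

theorem rp3 (L : ℝ) : L ^ (3 : ℝ) = L ^ 3 := by
  have := Real.rpow_natCast L 3
  push_cast at this
  exact this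

theorem conv1 (h1 : S_CONV) {Ω : Type} [MeasurableSpace Ω] (P : Measure Ω) (A : ℝ)
    (U : ℕ → Ω → ℝ) (hU : IsUnif P U) (hA : 0 < A) (c : ℝ) (hc : 1 < c) :
    ∀ᵐ ω ∂P, ∀ᶠ n : ℕ in atTop, ω ∉ void A U n (c * Real.log n ^ 2) := by
  have hc0 : 0 < c := by linarith
  have he : (1 - (c - 1) / (2 * c)) * c = (c + 1) / 2 := by field_simp; ring
  refine h1 Ω P A 3 ((c - 1) / (2 * c)) U hU hA (by norm_num) (by apply div_pos <;> linarith)
    (fun n => (n : ℝ)) (fun n => c * Real.log n ^ 2) tendsto_natCast_atTop_atTop ?_ ?_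
  · filter_upwards [tlog.eventually_ge_atTop c] with n hn
    have hL : 0 < Real.log n := by linarith
    refine ⟨by positivity, ?_⟩
    rw [rp3]
    have : 0 ≤ (Real.log n - c) * Real.log n ^ 2 := mul_nonneg (by linarith) (by positivity)
    nlinarith
  · rw [← summable_nat_add_iff 1]
    have h := (summable_nat_add_iff (f := fun n : ℕ => (n : ℝ) ^ (-((c + 1) / 2))) 1).2
      (Real.summable_nat_rpow.2 (by linarith))
    refine h.congr fun n => ?_
    rw [exp_eq _ _ _ (by positivity), he]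

theorem mono1 (A : ℝ) {Ω : Type} (U : ℕ → Ω → ℝ) (c' c : ℝ) (hc' : 0 < c') (hc : c' < c) :
    ∀ᶠ x : ℝ in atTop, void A U x (c * Real.log x ^ 2) ⊆
      void A U (⌈x⌉₊ : ℕ) (c' * Real.log (⌈x⌉₊ : ℕ) ^ 2) := by
  have hT : Tendsto (fun x : ℝ => (c - c') * Real.log x ^ 2) atTop atTop :=
    Tendsto.const_mul_atTop (by linarith)
      ((tendsto_pow_atTop (by norm_num)).comp Real.tendsto_log_atTop)
  filter_upwards [hT.eventually_ge_atTop (1 + 3 * c'), eventually_ge_atTop (1 : ℝ)] with x h1 h2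
  apply void_sub A U (Nat.le_ceil x)
  have hx0 : 0 < x := by linarith
  have hn : ((⌈x⌉₊ : ℕ) : ℝ) ≤ x + 1 := (Nat.ceil_lt_add_one hx0.le).le
  have hnx : x ≤ ((⌈x⌉₊ : ℕ) : ℝ) := Nat.le_ceil x
  have hL0 : 0 ≤ Real.log x := Real.log_nonneg h2
  have hLx : Real.log x ≤ x := Real.log_le_self hx0.le
  have hln : Real.log (⌈x⌉₊ : ℕ) ≤ Real.log x + 1 / x := by
    have e1 : Real.log (⌈x⌉₊ : ℕ) ≤ Real.log (x * (1 + 1 / x)) := by
      apply Real.log_le_log (by linarith)
      have : x * (1 + 1 / x) = x + 1 := by field_simp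
      rw [this]; exact hn
    rw [Real.log_mul hx0.ne' (by positivity)] at e1
    have e2 : Real.log (1 + 1 / x) ≤ 1 / x := by
      have := Real.log_le_sub_one_of_pos (x := 1 + 1 / x) (by positivity)
      linarith
    linarith
  have hln0 : 0 ≤ Real.log (⌈x⌉₊ : ℕ) := Real.log_nonneg (by linarith)
  have hix : 1 / x ≤ 1 := by rw [div_le_one hx0]; exact h2
  have hix0 : 0 ≤ 1 / x := by positivity
  have hsq : Real.log (⌈x⌉₊ : ℕ) ^ 2 ≤ Real.log x ^ 2 + 3 := by
    have e3 : Real.log (⌈x⌉₊ : ℕ) ^ 2 ≤ (Real.log x + 1 / x) ^ 2 :=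
      pow_le_pow_left₀ hln0 hln 2
    have e4 : Real.log x * (1 / x) ≤ 1 := by
      rw [mul_one_div, div_le_one hx0]; exact hLx
    have e5 : (1 / x) ^ 2 ≤ 1 := by
      have := pow_le_pow_left₀ hix0 hix 2
      simpa using this
    nlinarith
  nlinarith

theorem div1 (h2 : S_DIV) {Ω : Type} [MeasurableSpace Ω] (P : Measure Ω) (A : ℝ)
    (U : ℕ → Ω → ℝ) (hU : IsUnif P U) (hA : 0 < A) (c : ℝ) (hc0 : 0 < c) (hc : c < 1) :
    ∀ᵐ ω ∂P, ∃ᶠ x : ℝ in atTop, ω ∈ void A U x (c * Real.log x ^ 2) := by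
  set s : ℝ := (1 - c) / 4 with hs
  have hs0 : 0 < s := by rw [hs]; linarith
  have hT : Tendsto (fun n : ℕ => (n : ℝ) ^ (1 + s)) atTop atTop :=
    (tendsto_rpow_atTop (by linarith)).comp tendsto_natCast_atTop_atTop
  have hlog : ∀ n : ℕ, Real.log ((n : ℝ) ^ (1 + s)) = (1 + s) * Real.log n := by
    intro n
    rcases Nat.eq_zero_or_pos n with rfl | hn
    · rw [Nat.cast_zero, Real.zero_rpow (by linarith), Real.log_zero, mul_zero]
    · exact Real.log_rpow (by exact_mod_cast hn) _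
  have hmain := h2 Ω P A 3 s U hU hA (by norm_num) hs0
    (fun n => (n : ℝ) ^ (1 + s)) (fun n => c * Real.log ((n : ℝ) ^ (1 + s)) ^ 2) hT ?_ ?_
  · filter_upwards [hmain] with ω hω
    exact hT.frequently hω
  · have ho := isLittleO_log_rpow_rpow_atTop (2 : ℝ) hs0
    have hb := (ho.bound (c := 1 / (c * (1 + s) ^ 2)) (by positivity))
    have hb' := tendsto_natCast_atTop_atTop (R := ℝ) |>.eventually hb
    have ht := Real.tendsto_log_atTop.comp hT
    filter_upwards [hb', ht.eventually_ge_atTop c, eventually_ge_atTop 1] with n hn hn2 hn3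
    simp only [Function.comp_apply] at hn2
    have hL : 0 < Real.log ((n : ℝ) ^ (1 + s)) := by linarith
    have hn1 : (1 : ℝ) ≤ n := by exact_mod_cast hn3
    refine ⟨by positivity, ?_, ?_⟩
    · rw [rp3]
      have : 0 ≤ (Real.log ((n : ℝ) ^ (1 + s)) - c) * Real.log ((n : ℝ) ^ (1 + s)) ^ 2 :=
        mul_nonneg (by linarith) (by positivity)
      nlinarith
    · rw [hlog, Real.rpow_two, Real.norm_of_nonneg (by positivity),
        Real.norm_of_nonneg (by positivity)] at *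
      have h3 : c * ((1 + s) * Real.log n) ^ 2 ≤ (n : ℝ) ^ s := by
        have h4 : 0 < c * (1 + s) ^ 2 := by positivity
        rw [div_mul_eq_mul_div, one_mul, le_div_iff₀ h4] at hn
        calc c * ((1 + s) * Real.log n) ^ 2 = Real.log n ^ 2 * (c * (1 + s) ^ 2) := by ring
          _ ≤ _ := hn
      have h5 : (n : ℝ) ^ s ≤ ((n + 1 : ℕ) : ℝ) ^ s :=
        Real.rpow_le_rpow (by positivity) (by push_cast; linarith) hs0.le
      have h6 : ((n + 1 : ℕ) : ℝ) ^ (1 + s) = ((n + 1 : ℕ) : ℝ) * ((n + 1 : ℕ) : ℝ) ^ s := by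
        rw [Real.rpow_add (by positivity), Real.rpow_one]
      have h7 : (n : ℝ) ^ (1 + s) = (n : ℝ) * (n : ℝ) ^ s := by
        rw [Real.rpow_add (by positivity), Real.rpow_one]
      rw [h6, h7]
      have h8 : ((n + 1 : ℕ) : ℝ) = n + 1 := by push_cast; ring
      have h9 : 0 ≤ (n : ℝ) := by positivity
      have h10 : ((n + 1 : ℕ) : ℝ) * (n : ℝ) ^ s ≤ ((n + 1 : ℕ) : ℝ) * ((n + 1 : ℕ) : ℝ) ^ s :=
        mul_le_mul_of_nonneg_left h5 (by positivity)
      have h11 : ((n + 1 : ℕ) : ℝ) * (n : ℝ) ^ s = n * (n : ℝ) ^ s + (n : ℝ) ^ s := by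
        rw [h8]; ring
      linarith
  · rw [← summable_nat_add_iff 1]
    intro hsum
    have h3 : Summable (fun n : ℕ => (n : ℝ) ^ (-((1 + s) * c * (1 + s)))) := by
      rw [← summable_nat_add_iff 1]
      refine hsum.congr fun n => ?_
      rw [exp_eq _ _ _ (by positivity), ← Real.rpow_mul (by positivity)]
      congr 1
      ring
    rw [Real.summable_nat_rpow] at h3
    have h4 : (1 + s) * c * (1 + s) ≤ 1 := by
      rw [hs]
      nlinarith [mul_pos hc0 (sub_pos.2 hc), mul_pos (sub_pos.2 hc) (sub_pos.2 hc),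
        mul_pos (mul_pos (sub_pos.2 hc) (sub_pos.2 hc)) (sub_pos.2 hc)]
    linarith

theorem t_ALL (h1 : S_CONV) (h2 : S_DIV) : S_ALL := by
  intro Ω _ P A U hU hA
  have hk : ∀ k : ℕ, ∀ᵐ ω ∂P, ∀ᶠ n : ℕ in atTop,
      ω ∉ void A U n ((1 + 1 / ((k : ℝ) + 1)) * Real.log n ^ 2) := fun k =>
    conv1 h1 P A U hU hA _ (by
      have : 0 < 1 / ((k : ℝ) + 1) := by positivity
      linarith)
  have hk2 : ∀ k : ℕ, ∀ᵐ ω ∂P, ∃ᶠ x : ℝ in atTop,
      ω ∈ void A U x ((1 - 1 / ((k : ℝ) + 2)) * Real.log x ^ 2) := fun k =>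
    div1 h2 P A U hU hA _ (by
      have : 1 / ((k : ℝ) + 2) < 1 := by
        rw [div_lt_one (by positivity)]
        have : (0 : ℝ) ≤ k := by positivity
        linarith
      linarith) (by
      have : 0 < 1 / ((k : ℝ) + 2) := by positivity
      linarith)
  filter_upwards [ae_all_iff.2 hk, ae_all_iff.2 hk2] with ω hω hω2
  constructor
  · intro c hc
    obtain ⟨k, hk⟩ := exists_nat_one_div_lt (sub_pos.2 hc)
    have h3 := mono1 A U (1 + 1 / ((k : ℝ) + 1)) c (by positivity) (by linarith)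
    have h4 := (tendsto_nat_ceil_atTop (α := ℝ)).eventually (hω k)
    filter_upwards [h3, h4] with x h5 h6 h7
    exact h6 (h5 h7)
  · intro c hc
    obtain ⟨k, hk⟩ := exists_nat_one_div_lt (sub_pos.2 hc)
    refine (hω2 k).mono fun x hx => ?_
    refine void_sub A U le_rfl ?_ hx
    have h3 : 1 / ((k : ℝ) + 2) ≤ 1 / ((k : ℝ) + 1) :=
      one_div_le_one_div_of_le (by positivity) (by linarith)
    have h4 : c * Real.log x ^ 2 ≤ (1 - 1 / ((k : ℝ) + 2)) * Real.log x ^ 2 :=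
      mul_le_mul_of_nonneg_right (by linarith) (by positivity)
    linarith

end Pool.Agent.U59.DP
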